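import Pool.Agent.W5h46.SC.SMove

/-!
# Which admissible pairs generate scales of analytic functions

For an admissible pair `(D, K)` on the Riemann sphere, property (S) holds if and only if the
interpolation hulls of `K` relative to `H^∞(D)` are compact subsets of `D`; this does not depend
on `K`.
-/

set_option autoImplicit false

namespace Pool.Agent.Results.MP_13a571_an.SphereClassification

open Pool.Agent.W5h46.SC.Sph

theorem result : ∀ (D K : Set (OnePoint ℂ)) (ω : OnePoint ℂ → ℝ), Admissible D K ω → List.TFAE [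
    PropertyS D K ω,
    ∀ L ⊆ D, IsCompact L → ∀ θ : ℝ, 0 < θ → θ < 1 → IsCompact (Hull D L θ),
    ∀ θ : ℝ, 0 < θ → θ < 1 → IsCompact (Hull D K θ),
    ∀ θ : ℝ, 0 < θ → θ < 1 → Hull D K θ = {p ∈ D | ω p ≤ θ}] :=
  fun _ _ _ hA => hA.tfae

end Pool.Agent.Results.MP_13a571_an.SphereClassification
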